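import Pool.Agent.Lib.MP_25cd9a_co.PTop

set_option autoImplicit false

namespace Pool.Agent.Results.MP_25cd9a_co.MinAdmissiblePoly

open Pool.Agent.Lib.MP_25cd9a_co

/-- Treewidth 3 works for `k`-planar graphs with a polynomial clique size, and no smaller
treewidth works with any clique size. -/
theorem result : AdmissibleWith 3 (fun k => 10 ^ 22 * (k + 1) ^ 14) ∧
    ∀ (c : ℕ) (f : ℕ → ℕ), AdmissibleWith c f → 3 ≤ c :=
  ⟨admissibleWith_poly, fun _ f h => three_le ⟨f, h⟩⟩

end Pool.Agent.Results.MP_25cd9a_co.MinAdmissiblePoly
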